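import Pool.Agent.Helper17.CA.Parts
import Pool.Agent.Helper66.CA.Ae
import Pool.Agent.Helper80.CA.NoFive

set_option autoImplicit false

/-! Project Cantoni (MP_16e137_co): the theorem. -/

namespace Pool.Agent.Helper17.CA
open Function Pool.Agent.Helper17.CT

/-- the bound for cyclically 4-edge-connected maps -/
theorem cyc_bound : CycBound := fun _ _ M _ hp hT h4 =>
  Pool.Agent.Helper80.CA.card_le hp hT h4 (fun v0 w0 h5 hNA =>
    Pool.Agent.Helper66.CA.ae M hp v0 w0 h5 hNA)

/-- A cubic graph without `K₃₃` minor has exactly three Hamilton cycles if and only if it arises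
from `K₄` by repeatedly replacing a vertex by a triangle. -/
theorem cantoni (V : Type) [Fintype V] [DecidableEq V] (G : SimpleGraph V)
    (h3 : ∀ v : V, (G.neighborSet v).ncard = 3)
    (h33 : ¬ ∃ f g : Fin 3 → Set V,
          (∀ i : Fin 3, (G.induce (f i)).Connected) ∧
          (∀ i : Fin 3, (G.induce (g i)).Connected) ∧
          (∀ i j : Fin 3, i ≠ j → Disjoint (f i) (f j)) ∧
          (∀ i j : Fin 3, i ≠ j → Disjoint (g i) (g j)) ∧
          (∀ i j : Fin 3, Disjoint (f i) (g j)) ∧
          (∀ i j : Fin 3, ∃ x : V, x ∈ f i ∧ ∃ y : V, y ∈ g j ∧ G.Adj x y)) :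
    (HamS G).ncard = 3 ↔ StackG G :=
  frozen_of_bound cyc_bound V G h3 h33

end Pool.Agent.Helper17.CA
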