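import Pool.Agent.Helper17.CA.MapAll

set_option autoImplicit false

/-!
Project Cantoni (MP_16e137_co): the class theorem for graphs, from the bound for cyclically
4-edge-connected maps (`CycBound`).
-/

namespace Pool.Agent.Helper17.CA
open Function Pool.Agent.Helper17.CT

section
variable {V : Type} [Fintype V] [DecidableEq V] (G : SimpleGraph V)

/-- `G` arises from `K₄` by repeatedly replacing a vertex by a triangle. -/
def StackG : Prop :=
    ∃ (n : ℕ) (Γ : ∀ k : ℕ, SimpleGraph (Fin (4 + 2 * k))),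
          Γ 0 = (⊤ : SimpleGraph (Fin (4 + 2 * 0))) ∧
          (∀ (k : ℕ) (x : Fin (4 + 2 * k)), ((Γ k).neighborSet x).ncard = 3) ∧
          (∀ k : ℕ, k < n →
            ∃ (f : Fin (4 + 2 * (k + 1)) → Fin (4 + 2 * k)) (v : Fin (4 + 2 * k)),
              (f ⁻¹' ({v} : Set (Fin (4 + 2 * k)))).ncard = 3 ∧
              (∀ w : Fin (4 + 2 * k), w ≠ v →
                (f ⁻¹' ({w} : Set (Fin (4 + 2 * k)))).ncard = 1) ∧
              (∀ x y : Fin (4 + 2 * (k + 1)),
                (Γ (k + 1)).Adj x y → f x = f y ∨ (Γ k).Adj (f x) (f y)) ∧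
              (∀ x y : Fin (4 + 2 * (k + 1)),
                x ≠ y → f x = v → f y = v → (Γ (k + 1)).Adj x y) ∧
              (∀ a b : Fin (4 + 2 * k), (Γ k).Adj a b →
                ∃! e : Sym2 (Fin (4 + 2 * (k + 1))),
                  e ∈ (Γ (k + 1)).edgeSet ∧ Sym2.map f e = s(a, b))) ∧
          Nonempty (G ≃g Γ n)

/-- the set of (edge sets of) Hamilton cycles -/
def HamS : Set (Set (Sym2 V)) :=
  {s : Set (Sym2 V) | ∃ (u : V) (p : G.Walk u u),
      p.IsHamiltonianCycle ∧ s = {e : Sym2 V | e ∈ p.edges}}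

variable (ρ : Equiv.Perm G.Dart) (h1 : ∀ d, (ρ d).fst = d.fst) (h2 : ∀ d, ρ d ≠ d)
    (h3 : ∀ v : V, (G.neighborSet v).ncard = 3)

include h1 h2 h3 in
/-- the map of a cubic graph with exactly three Hamilton cycles -/
lemma setup_ham (hH : (HamS G).ncard = 3) :
    (∃ γ, (mapOf G ρ h1 h2 h3).Tri γ) ∧ 12 ≤ Nat.card G.Dart := by
  have hfin : Finite G.Dart := by
    classical
    exact Finite.of_fintype _
  obtain ⟨U, hU⟩ := three_of_ncard G ρ h1 h2 h3 hH
  obtain ⟨γ, hγ⟩ := smith (mapOf G ρ h1 h2 h3) U hU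
  obtain ⟨c1, c2⟩ := card_dart G h3
  have hne : Nonempty V := by
    have h0 : (HamS G).Nonempty := by
      apply Set.nonempty_of_ncard_ne_zero
      rw [hH]; norm_num
    obtain ⟨s, u, _⟩ := h0
    exact ⟨u⟩
  have c3 := four_le G h3
  exact ⟨⟨γ, hγ⟩, by omega⟩

include h1 h2 h3 in
/-- the class theorem, homological planarity -/
theorem class_planar (hB : CycBound) (hp : (mapOf G ρ h1 h2 h3).Planar)
    (hH : (HamS G).ncard = 3) : StackG G := by
  have hfin : Finite G.Dart := by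
    classical
    exact Finite.of_fintype _
  obtain ⟨⟨γ, hγ⟩, h12⟩ := setup_ham G ρ h1 h2 h3 hH
  apply iso_of_stk G ρ h1 h2 h3
  exact stk_all hB _ G.Dart (mapOf G ρ h1 h2 h3) γ le_rfl hp hγ h12

include h1 h2 h3 in
/-- the class theorem, Euler formula -/
theorem class_euler (hB : CycBound)
    (hE : (Fintype.card V : ℤ) - (G.edgeSet.ncard : ℤ) +
      (Nat.card (Quot fun x y : G.Dart => ρ x.symm = y) : ℤ) = 2)
    (hH : (HamS G).ncard = 3) : StackG G := by
  obtain ⟨hp, -⟩ := setup G ρ h1 h2 h3 hE hH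
  exact class_planar G ρ h1 h2 h3 hB hp hH

end

/-- The statement of helper95's theorem `plane_of_minorfree`: a cubic graph with a Hamilton cycle
and without a `K₃₃` minor has a rotation system which is plane. -/
def PlaneOf : Prop :=
  ∀ (V : Type) [Fintype V] [DecidableEq V] (G : SimpleGraph V)
    (h3 : ∀ v : V, (G.neighborSet v).ncard = 3),
    (HamS G).Nonempty →
    (¬ ∃ f g : Fin 3 → Set V,
          (∀ i : Fin 3, (G.induce (f i)).Connected) ∧
          (∀ i : Fin 3, (G.induce (g i)).Connected) ∧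
          (∀ i j : Fin 3, i ≠ j → Disjoint (f i) (f j)) ∧
          (∀ i j : Fin 3, i ≠ j → Disjoint (g i) (g j)) ∧
          (∀ i j : Fin 3, Disjoint (f i) (g j)) ∧
          (∀ i j : Fin 3, ∃ x : V, x ∈ f i ∧ ∃ y : V, y ∈ g j ∧ G.Adj x y)) →
    ∃ (ρ : Equiv.Perm G.Dart) (h1 : ∀ d, (ρ d).fst = d.fst) (h2 : ∀ d, ρ d ≠ d),
      (mapOf G ρ h1 h2 h3).Planar

/-- The statement of helper58's theorem `three_of_stk`: the stacked graphs have exactly three
Hamilton cycles. -/
def ThreeOf : Prop :=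
  ∀ (V : Type) [Fintype V] [DecidableEq V] (G : SimpleGraph V), StackG G → (HamS G).ncard = 3

/-- the frozen statement from its four parts -/
theorem frozen_of (hB : CycBound) (hK : PlaneOf) (hI : ThreeOf)
    (V : Type) [Fintype V] [DecidableEq V] (G : SimpleGraph V)
    (h3 : ∀ v : V, (G.neighborSet v).ncard = 3)
    (h33 : ¬ ∃ f g : Fin 3 → Set V,
          (∀ i : Fin 3, (G.induce (f i)).Connected) ∧
          (∀ i : Fin 3, (G.induce (g i)).Connected) ∧
          (∀ i j : Fin 3, i ≠ j → Disjoint (f i) (f j)) ∧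
          (∀ i j : Fin 3, i ≠ j → Disjoint (g i) (g j)) ∧
          (∀ i j : Fin 3, Disjoint (f i) (g j)) ∧
          (∀ i j : Fin 3, ∃ x : V, x ∈ f i ∧ ∃ y : V, y ∈ g j ∧ G.Adj x y)) :
    (HamS G).ncard = 3 ↔ StackG G := by
  constructor
  · intro hH
    have hne : (HamS G).Nonempty := by
      apply Set.nonempty_of_ncard_ne_zero
      rw [hH]; norm_num
    obtain ⟨ρ, h1, h2, hp⟩ := hK V G h3 hne h33
    exact class_planar G ρ h1 h2 h3 hB hp hH
  · exact hI V G

end Pool.Agent.Helper17.CA
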