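import Pool.Agent.Helper17.CT.GraphMain

set_option autoImplicit false

/-!
Project Cantoni (MP_16e137_co): the class theorem from the bound for cyclically
4-edge-connected maps.
-/

namespace Pool.Agent.Helper17.CA
open Function Pool.Agent.Helper17.CT

/-- Cyclically 4-edge-connected plane cubic maps with exactly three Hamilton cycles have at most
twelve darts. -/
def CycBound : Prop :=
  ∀ (D : Type) [Finite D] (M : CMap D) (γ : D → Fin 3), M.Planar → M.Tri γ → M.Cyc4 →
    Nat.card D ≤ 12

/-- the class theorem for maps -/
theorem stk_all (hB : CycBound) : ∀ (n : ℕ) (D : Type) [Finite D]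
    (M : CMap D) (γ : D → Fin 3), Nat.card D ≤ n → M.Planar → M.Tri γ →
    12 ≤ Nat.card D → M.Stk := by
  intro n
  induction n with
  | zero =>
    intro D _ M γ h _ _ h12
    omega
  | succ n ih =>
    intro D _ M γ hn hp hT h12
    have hne : Nonempty D := by
      by_contra hne
      rw [not_nonempty_iff] at hne
      rw [Nat.card_of_isEmpty] at h12
      omega
    have hc3 : M.Con3 := con3_of_tri M γ hT
    have hs : M.Simple := simple_of_con3 M hc3 (by omega)
    by_cases h4 : M.Cyc4
    · have := hB D M γ hp hT h4
      exact stk_base M (by omega) hs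
    · obtain ⟨X, hX, h3, ⟨y, hy⟩, hX6, hY6, hcyc⟩ := exists_cyc4 M hc3 h4
      obtain ⟨M1, hM1⟩ := exists_contr M hp γ hT X hX h3 ⟨y, hy⟩
      have hp1 := contr_planar M hp γ hT X hX h3 M1 hM1
      have hT1 := contr_tri M γ hT X hX h3 M1 hM1
      have hcard1 := contr_card_add M X
      rw [h3] at hcard1
      have hle1 := hB _ M1 _ hp1 hT1 (hcyc M1 hM1)
      have hdvd1 := six_dvd M1 _ hT1
      have hX9 : Nat.card {d : D // X d = true} = 9 := by omega
      -- contract the triangle
      set X' : D → Bool := fun d => !X d with hX'
      have hXv : M.VSet X' := fun d => by simp only [hX']; rw [hX d]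
      have h3' : M.bd X' = 3 := by rw [hX', bd_compl M X, h3]
      have hXt : ∃ d, X' d = false := by
        by_contra hcon
        push Not at hcon
        have : IsEmpty {d : D // X d = true} := ⟨fun d => hcon d.1 (by simp [hX', d.2])⟩
        rw [Nat.card_of_isEmpty] at hX9
        omega
      obtain ⟨M2, hM2⟩ := exists_contr M hp γ hT X' hXv h3' hXt
      have hp2 := contr_planar M hp γ hT X' hXv h3' M2 hM2
      have hT2 := contr_tri M γ hT X' hXv h3' M2 hM2
      have hcard2 := contr_card_add M X'
      rw [h3'] at hcard2
      have e1 : Nat.card {d : D // X' d = true} = Nat.card {d : D // X d = false} :=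
        Nat.card_congr (Equiv.subtypeEquivRight (fun d => by simp [hX']))
      have e2 : Nat.card {d : D // X' d = false} = Nat.card {d : D // X d = true} :=
        Nat.card_congr (Equiv.subtypeEquivRight (fun d => by simp [hX']))
      have hsum : Nat.card D = Nat.card {d : D // X d = true} +
          Nat.card {d : D // X d = false} := by
        classical
        have : Fintype D := Fintype.ofFinite D
        rw [Nat.card_eq_fintype_card, Nat.card_eq_fintype_card, Nat.card_eq_fintype_card,
          Fintype.card_subtype, Fintype.card_subtype, ← Finset.card_univ]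
        rw [← Finset.card_filter_add_card_filter_not (s := (Finset.univ : Finset D))
          (p := fun d => X d = true)]
        congr 2
        ext d
        simp
      have hdvd2 := six_dvd M2 _ hT2
      have hS2 : M2.Stk := ih _ M2 _ (by omega) hp2 hT2 (by omega)
      have hs2 : M2.Simple := simple_of_con3 M2 (con3_of_tri M2 _ hT2) (by omega)
      exact stk_step M hs X' hXv h3' (by rw [e2, hX9]) M2 hM2 hs2 hS2

end Pool.Agent.Helper17.CA
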